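import Pool.Agent.Q105.LAB.Top

set_option autoImplicit false

/-!
# Linear arboricity of blow-ups

`la` is the least number of linear forests whose union is the graph (`H931R3.LA.la`), `bl G (Fin m)`
is the blow-up `G[m]` of `G`: the graph on `V × Fin m` with `(u, a) ~ (v, b)` iff `u ~ v` in `G`.

A graph `P` on `X` is a blow-up of `G` with classes of size `m` iff there is `f : X → V` all whose
fibres have `m` elements with `x ~ y` in `P` iff `f x ~ f y` in `G`.
-/

namespace Pool.Agent.H105.LAB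

open H931R3.LA Pool.Agent.Q105.LAB Pool.Agent.W111.LAR

/-- `P` is the blow-up of `G` along `f` with classes of size `m`. -/
def IsBlowUp {V X : Type} (G : SimpleGraph V) (P : SimpleGraph X) (f : X → V) (m : ℕ) : Prop :=
  (∀ x y, P.Adj x y ↔ G.Adj (f x) (f y)) ∧ ∀ v, (f ⁻¹' {v}).ncard = m

/-- `f` is a homomorphism whose fibres have at most `m` elements. -/
def SmallHom {V X : Type} (G : SimpleGraph V) (P : SimpleGraph X) (f : X → V) (m : ℕ) : Prop :=
  (∀ x y, P.Adj x y → G.Adj (f x) (f y)) ∧ ∀ v, (f ⁻¹' {v}).ncard ≤ m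

/-- `P` is `d`-regular and satisfies the linear arboricity conjecture. -/
def LAC {X : Type} (P : SimpleGraph X) (d : ℕ) : Prop :=
  (∀ x, (P.neighborSet x).ncard = d) ∧ la P = (d + 2) / 2

/-- The admissible pairs of a degree `r` and a class size `m`. -/
def Adm (r m : ℕ) : Prop :=
  1 ≤ r ∧ ((Even r ∧ 2 ≤ m ∧ r ≤ 4 * m) ∨ (Even m ∧ r ≤ 2 * m) ∨ r ≤ m)

theorem small_of_blow {V X : Type} {G : SimpleGraph V} {P : SimpleGraph X} {f : X → V} {m : ℕ}
    (h : IsBlowUp G P f m) : SmallHom G P f m :=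
  ⟨fun x y hxy => (h.1 x y).1 hxy, fun v => (h.2 v).le⟩

theorem lac_of {V X : Type} [Finite V] [Nonempty V] [Finite X] {G : SimpleGraph V}
    {P : SimpleGraph X} {f : X → V} {r m : ℕ} (hr : 1 ≤ r) (hm : 1 ≤ m) (h : IsBlowUp G P f m)
    (hG : ∀ v, (G.neighborSet v).ncard = r) (hc : Cov P ((r * m + 2) / 2)) : LAC P (r * m) := by
  have hreg : ∀ x, (P.neighborSet x).ncard = r * m := fun x => blow_deg h.1 h.2 hG x
  have hne : Nonempty X := by
    obtain ⟨v⟩ := ‹Nonempty V›
    have h1 : 0 < (f ⁻¹' {v}).ncard := by rw [h.2 v]; exact hm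
    obtain ⟨x, _⟩ := (Set.ncard_pos (Set.toFinite _)).1 h1
    exact ⟨x⟩
  exact ⟨hreg, la_eq_of_cov (Nat.mul_pos hr hm) hreg hc⟩

end Pool.Agent.H105.LAB
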